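import Pool.Agent.U61.JS.F

set_option autoImplicit false

/-!
# Small primes with a prescribed splitting type in several quadratic fields

Let `Q` be a set of primes with at least `κ y ^ ρ / log y` elements up to `y` (for instance all
primes, `ρ = 1`), let `A ρ > 1`, and let `η, ε > 0`. There are `c, K > 0` such that for all `X ≥ 1`:

(1) For EVERY integer `D`, however large, all but `K X ^ (1 - ρ + 1 / A + ε)` of the fundamental
discriminants `d` with `|d| ≤ X` (of both signs) satisfy `|∑ (D d / p)| ≤ η |Q_y|`, the sum over the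
odd primes `p ≤ y` in `Q`, for all `y` between `(log X) ^ A` and `X ^ c`; `|Q_y|` is the number of
primes `p ≤ y` in `Q`.

(2) For all but `K X ^ (k - ρ + 1 / A + ε)` of the `k`-tuples of fundamental discriminants
`|d_i| ≤ X`, and for all `y` between `(log X) ^ A` and `X ^ c`, each of the `2 ^ k` splitting patterns
(split or inert in each of the `k` quadratic fields) is the pattern of `2 ^ (-k) |Q_y|` primes
`p ≤ y` in `Q`, up to an error of at most `η 2 ^ (-k) |Q_y|`.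

(3) If `ρ > 1/2`, the same holds for the primes below the smallest of the thresholds
`(log |d_i|) ^ 2 (log log |d_i|) ^ 2` of the question, up to `K X ^ (k + 1 / 2 - ρ + ε)` tuples.

(4) For all but `K X ^ (k - 1 / 2 + ε)` of the tuples at least `(log X) ^ 2` primes below all the
thresholds split in all the `k` fields. (For `k = 1` this is Q1 for all but `K X ^ (1 / 2 + ε)`
discriminants; the case `k = 2` is the form used in Edixhoven's argument, where the primes have to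
split in both CM fields.)

For `k ≥ 2` the diagonal `d_1 = d_2` shows that the exponent in (2) cannot be smaller than `k - 1`.

Proof. By the uniform large value estimate of `Pool.Agent.Y549.SP.BAD3` (Heath-Brown's quadratic
large sieve for products of sums over disjoint blocks of primes; the constants do not depend on the
twist `D`) few `d` have a large sum of `(D d / p)`. The indicator of a pattern is
`2 ^ (-k) ∏ (1 ± (d_i / p))`, outside the at most `2 k log X` ramified primes; the product is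
expanded, and in the term of a nonempty set `S` of indices one of the `d_i`, `i ∈ S`, is counted
with the twist `D` given by the product of the others.
-/

namespace Pool.Agent.Results.MP_aaa0df_nt.JointSplitting

/-- the fundamental discriminants `d` (of the quadratic fields, and `1`) -/
def Fund (d : ℤ) : Prop := (d % 4 = 1 ∧ Squarefree d) ∨
  ∃ m : ℤ, d = 4 * m ∧ (m % 4 = 2 ∨ m % 4 = 3) ∧ Squarefree m

/-- the primes `p ≤ y` in the set `Q` -/
def primesIn (Q : Set ℕ) (y : ℕ) : Set ℕ := {p | p.Prime ∧ p ≤ y ∧ p ∈ Q}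

/-- at least `κ y ^ ρ / log y` primes `p ≤ y` lie in `Q`, for all large `y`, for some `κ > 0` -/
def Thick (Q : Set ℕ) (ρ : ℝ) : Prop := ∃ κ : ℝ, 0 < κ ∧ ∃ y₀ : ℕ, ∀ y : ℕ, y₀ ≤ y →
  κ * (y : ℝ) ^ ρ ≤ (primesIn Q y).ncard * Real.log y

open Classical in
/-- the sum of the symbols `(a | p)` over the odd primes `p ≤ y` in `Q` -/
noncomputable def symSum (Q : Set ℕ) (a : ℤ) (y : ℕ) : ℤ :=
  ∑ p ∈ (Finset.range (y + 1)).filter (fun p => p.Prime ∧ p ≠ 2 ∧ p ∈ Q), jacobiSym a p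

/-- `p` is unramified in the fields of discriminants `d i`, it splits (`p` does not divide `d` and
`d` is a square modulo `4 p`, as in the frozen statement) in those with `s i = true` and is inert in
the others -/
def Pattern {k : ℕ} (d : Fin k → ℤ) (s : Fin k → Bool) (p : ℕ) : Prop :=
  ∀ i, ¬ (p : ℤ) ∣ d i ∧ ((∃ x : ℤ, (4 * (p : ℤ)) ∣ x ^ 2 - d i) ↔ s i = true)

/-- the primes `p ≤ y` in `Q` with the pattern `s` -/
def patIn {k : ℕ} (Q : Set ℕ) (d : Fin k → ℤ) (s : Fin k → Bool) (y : ℕ) : Set ℕ :=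
  {p | p.Prime ∧ p ≤ y ∧ p ∈ Q ∧ Pattern d s p}

/-- the threshold `(log |d|) ^ 2 (log log |d|) ^ 2` of the question -/
noncomputable def thr (d : ℤ) : ℝ :=
  Real.log |(d : ℝ)| ^ 2 * Real.log (Real.log |(d : ℝ)|) ^ 2

/-- the number of the primes in `Q` below all the thresholds of the `d i`, with the pattern `s` -/
noncomputable def NP {k : ℕ} (Q : Set ℕ) (d : Fin k → ℤ) (s : Fin k → Bool) : ℕ :=
  Set.ncard {p : ℕ | p.Prime ∧ p ∈ Q ∧ (∀ i, (p : ℝ) < thr (d i)) ∧ Pattern d s p}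

/-- the number of the primes in `Q` below all the thresholds of the `d i` -/
noncomputable def MP {k : ℕ} (Q : Set ℕ) (d : Fin k → ℤ) : ℕ :=
  Set.ncard {p : ℕ | p.Prime ∧ p ∈ Q ∧ ∀ i, (p : ℝ) < thr (d i)}

theorem result :
    Thick Set.univ 1 ∧
    -- (1)
    (∀ (A ρ η ε : ℝ) (Q : Set ℕ), 0 < ρ → ρ ≤ 1 → 1 < A * ρ → 0 < η → 0 < ε → Thick Q ρ →
      ∃ c K : ℝ, 0 < c ∧ 0 < K ∧ ∀ (D : ℤ) (X : ℕ), 1 ≤ X →
        ({d : ℤ | (Fund d ∧ |d| ≤ X) ∧ ∃ y : ℕ, Real.log X ^ A ≤ y ∧ (y : ℝ) ≤ (X : ℝ) ^ c ∧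
          η * (primesIn Q y).ncard < |(symSum Q (D * d) y : ℝ)|}.ncard : ℝ) ≤
            K * (X : ℝ) ^ (1 - ρ + 1 / A + ε)) ∧
    -- (2)
    (∀ (k : ℕ), 1 ≤ k → ∀ (A ρ η ε : ℝ) (Q : Set ℕ), 0 < ρ → ρ ≤ 1 → 1 < A * ρ → 0 < η → 0 < ε →
      Thick Q ρ → ∃ c K : ℝ, 0 < c ∧ 0 < K ∧ ∀ X : ℕ, 1 ≤ X →
        ({d : Fin k → ℤ | (∀ i, Fund (d i) ∧ |d i| ≤ X) ∧ ∃ (y : ℕ) (s : Fin k → Bool),
          Real.log X ^ A ≤ y ∧ (y : ℝ) ≤ (X : ℝ) ^ c ∧ η * (primesIn Q y).ncard <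
            |2 ^ k * ((patIn Q d s y).ncard : ℝ) - (primesIn Q y).ncard|}.ncard : ℝ) ≤
              K * (X : ℝ) ^ (k - ρ + 1 / A + ε)) ∧
    -- (3)
    (∀ (k : ℕ), 1 ≤ k → ∀ (ρ η ε : ℝ) (Q : Set ℕ), 1 / 2 < ρ → ρ ≤ 1 → 0 < η → 0 < ε →
      Thick Q ρ → ∃ K : ℝ, 0 < K ∧ ∀ X : ℕ, 1 ≤ X →
        ({d : Fin k → ℤ | (∀ i, Fund (d i) ∧ |d i| ≤ X) ∧ ∃ s : Fin k → Bool,
          η * MP Q d < |2 ^ k * (NP Q d s : ℝ) - MP Q d|}.ncard : ℝ) ≤
            K * (X : ℝ) ^ (k + 1 / 2 - ρ + ε)) ∧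
    -- (4)
    (∀ (k : ℕ), 1 ≤ k → ∀ ε : ℝ, 0 < ε → ∃ K : ℝ, 0 < K ∧ ∀ X : ℕ, 1 ≤ X →
      ({d : Fin k → ℤ | (∀ i, Fund (d i) ∧ |d i| ≤ X) ∧
        (NP Set.univ d (fun _ => true) : ℝ) < Real.log X ^ 2}.ncard : ℝ) ≤
          K * (X : ℝ) ^ (k - 1 / 2 + ε)) := by
  refine ⟨Pool.Agent.Y549.SP.Fin2.thick_univ, ?_, ?_, ?_, ?_⟩
  · intro A ρ η ε Q hρ hρ1 hA hη hε hQ
    obtain ⟨c, K, hc, hK, h⟩ := Pool.Agent.U61.JS.twist A ρ η ε Q hρ hρ1 hA hη hε hQ
    exact ⟨c, K, hc, hK, fun D X hX => Pool.Agent.U61.JS.ncard_le_one X _ _ (h D X hX)⟩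
  · intro k hk A ρ η ε Q hρ hρ1 hA hη hε hQ
    obtain ⟨c, K, hc, hK, h⟩ := Pool.Agent.U61.JS.joint k hk A ρ η ε Q hρ hρ1 hA hη hε hQ
    exact ⟨c, K, hc, hK, fun X hX => Pool.Agent.U61.JS.ncard_le k X _ _ (h X hX)⟩
  · intro k hk ρ η ε Q hρ hρ1 hη hε hQ
    obtain ⟨K, hK, h⟩ := Pool.Agent.U61.JS.joint_thr k hk ρ η ε Q hρ hρ1 hη hε hQ
    exact ⟨K, hK, fun X hX => Pool.Agent.U61.JS.ncard_le k X _ _ (h X hX)⟩
  · intro k hk ε hε
    obtain ⟨K, hK, h⟩ := Pool.Agent.U61.JS.many k hk ε hε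
    exact ⟨K, hK, fun X hX => Pool.Agent.U61.JS.ncard_le k X _ _ (h X hX)⟩

end Pool.Agent.Results.MP_aaa0df_nt.JointSplitting
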