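import Pool.Agent.U265.MS.Thr
import Pool.Agent.Y549.SP.Fin2

set_option autoImplicit false

/-!
# MP_aaa0df_nt: small split primes in the quadratic fields with radicands near the multiples of a vector

The question asks whether the number `N(d)` of the primes `p < (log |d|) ^ 2 (log log |d|) ^ 2` which split in the
imaginary quadratic field of discriminant `d` tends to infinity. Here this is proved for ALL large members of the
sequences of the fields `ℚ(√-⌊w_n ξ⌋)`, for all real `ξ > 0` but a set of small Hausdorff dimension, and, jointly, for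
`k` quadratic fields with the radicands near `w_n ξ`, `ξ` a real vector, or near `ξ α ^ (w_n)`.

Let `Q` be a set of primes with at least `κ₀ y ^ ρ / log y` elements up to `y` (all primes: `ρ = 1`), `A ρ > 1`, and
`b = max (1/2) (1 - ρ + 1/A)`; for `A = 2`, `ρ = 1` this is `1/2`. Let `w_n ≥ 1`.

(1) If the sums of the `w_n ^ (-t)` converge for all `t > τ` (`τ = 1/c` for `w_n = n ^ c`, `τ = 0` for `w_n = 2 ^ n`), the
vectors `ξ ∈ ℝ^k` such that `w_n ξ` is not regular form a set of dimension at most `(k - 1 + b + τ) / (1 - κ)`. Regular: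
for every `η > 0` there is `c > 0` such that for all large `n`, for ALL radicands `m_i ≠ 0` with `|m_i - w_n ξ_i| ≤ w_n ^ κ`,
and the discriminants `d_i` of `ℚ(√m_i)`: `|d_i| ≥ w_n ^ c`, and for all `y` between `(log w_n) ^ A` and `w_n ^ c` each of the
`2 ^ k` splitting patterns is the pattern of `2 ^ (-k) |Q_y|` primes `p ≤ y` in `Q`, up to `η 2 ^ (-k) |Q_y|`.

(2) The same for one field, with the radicands near `ξ α ^ (w_n)`, in terms of `α > 1`, for all `ξ ≠ 0` in a countable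
set: the dimension is at most `b / (1 - κ)` if `w_n / log n → ∞`.

(3) For `A = 2` the conclusion holds for the primes below all the thresholds `(log |d_i|) ^ 2 (log log |d_i|) ^ 2`
of the question, and the number of these primes tends to infinity.

(4) In the words of the question: for all `ξ > 0` but a set of dimension at most `1 / 2 + τ`, `N(d_n) → ∞`, where
`d_n` is the discriminant of `ℚ(√-⌊w_n ξ⌋)`.

(5) The exponent `1/2` is optimal: for every sequence `w_n → ∞` the set of the `ξ < 0` which do not have the property (3)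
(with `k = 1`, `κ = 0`) has dimension at least `1/2`.

Proof. `EveryTwist` and `JointSplitting` bound the number of the fundamental discriminants with a large character sum,
uniformly in a twist; the radicands `m = d j ^ 2 / 4` of these discriminants are counted for each `j`, and the tuples by
their fibres. The cubes with a bad radicand are the covers in the definition of the Hausdorff measure. (5): squares, and the
mass transference principle.
-/

namespace Pool.Agent.Results.MP_aaa0df_nt.MetricSplitting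

open Filter

/-- the fundamental discriminants `d` (of the quadratic fields, and `1`) -/
def Fund (d : ℤ) : Prop := (d % 4 = 1 ∧ Squarefree d) ∨
  ∃ m : ℤ, d = 4 * m ∧ (m % 4 = 2 ∨ m % 4 = 3) ∧ Squarefree m

/-- `d` is the discriminant of `ℚ(√m)` (`1` if `m` is a square) -/
def IsDisc (m d : ℤ) : Prop := Fund d ∧ ∃ j : ℤ, j ≠ 0 ∧ 4 * m = d * j ^ 2

/-- the primes `p ≤ y` in the set `Q` -/
def primesIn (Q : Set ℕ) (y : ℕ) : Set ℕ := {p | p.Prime ∧ p ≤ y ∧ p ∈ Q}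

/-- at least `κ y ^ ρ / log y` primes `p ≤ y` lie in `Q`, for all large `y`, for some `κ > 0` -/
def Thick (Q : Set ℕ) (ρ : ℝ) : Prop := ∃ κ : ℝ, 0 < κ ∧ ∃ y₀ : ℕ, ∀ y : ℕ, y₀ ≤ y →
  κ * (y : ℝ) ^ ρ ≤ (primesIn Q y).ncard * Real.log y

/-- `p` is unramified in the fields of discriminants `d i`, it splits (`p` does not divide `d` and
`d` is a square modulo `4 p`, as in the frozen statement) in those with `s i = true` and is inert in
the others -/
def Pattern {k : ℕ} (d : Fin k → ℤ) (s : Fin k → Bool) (p : ℕ) : Prop :=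
  ∀ i, ¬ (p : ℤ) ∣ d i ∧ ((∃ x : ℤ, (4 * (p : ℤ)) ∣ x ^ 2 - d i) ↔ s i = true)

/-- the primes `p ≤ y` in `Q` with the pattern `s` -/
def patIn {k : ℕ} (Q : Set ℕ) (d : Fin k → ℤ) (s : Fin k → Bool) (y : ℕ) : Set ℕ :=
  {p | p.Prime ∧ p ≤ y ∧ p ∈ Q ∧ Pattern d s p}

/-- the threshold `(log |d|) ^ 2 (log log |d|) ^ 2` of the question -/
noncomputable def thr (d : ℤ) : ℝ :=
  Real.log |(d : ℝ)| ^ 2 * Real.log (Real.log |(d : ℝ)|) ^ 2

/-- the number of the primes in `Q` below all the thresholds of the `d i`, with the pattern `s` -/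
noncomputable def NP {k : ℕ} (Q : Set ℕ) (d : Fin k → ℤ) (s : Fin k → Bool) : ℕ :=
  Set.ncard {p : ℕ | p.Prime ∧ p ∈ Q ∧ (∀ i, (p : ℝ) < thr (d i)) ∧ Pattern d s p}

/-- the number of the primes in `Q` below all the thresholds of the `d i` -/
noncomputable def MP {k : ℕ} (Q : Set ℕ) (d : Fin k → ℤ) : ℕ :=
  Set.ncard {p : ℕ | p.Prime ∧ p ∈ Q ∧ ∀ i, (p : ℝ) < thr (d i)}

/-- `N(d)` of the question: the number of the primes `p < (log |d|) ^ 2 (log log |d|) ^ 2` which split in the quadratic field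
of discriminant `d` -/
noncomputable def N (d : ℤ) : ℕ :=
  Set.ncard {p : ℕ | p.Prime ∧ (p : ℝ) < Real.log |(d : ℝ)| ^ 2 * Real.log (Real.log |(d : ℝ)|) ^ 2 ∧
    ¬ (p : ℤ) ∣ d ∧ ∃ x : ℤ, (4 * (p : ℤ)) ∣ x ^ 2 - d}

/-- For every `η > 0` there is `c > 0` such that for all large `n`, all radicands `m i ≠ 0` with
`|m i - x n i| ≤ W n ^ κ` and the discriminants `d i` of `ℚ(√(m i))`: `|d i| ≥ W n ^ c` for all `i`, and for all `y` between
`(log (W n)) ^ A` and `W n ^ c` each pattern is the pattern of `2 ^ (-k) |Q_y|` primes `p ≤ y` in `Q`, up to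
`η 2 ^ (-k) |Q_y|`. -/
def Regular {k : ℕ} (Q : Set ℕ) (A κ : ℝ) (W : ℕ → ℝ) (x : ℕ → Fin k → ℝ) : Prop :=
  ∀ η : ℝ, 0 < η → ∃ c : ℝ, 0 < c ∧ ∀ᶠ n : ℕ in atTop, ∀ m d : Fin k → ℤ,
    (∀ i, m i ≠ 0 ∧ |(m i : ℝ) - x n i| ≤ W n ^ κ ∧ IsDisc (m i) (d i)) →
      (∀ i, W n ^ c ≤ |(d i : ℝ)|) ∧ ∀ (y : ℕ) (s : Fin k → Bool), Real.log (W n) ^ A ≤ y → (y : ℝ) ≤ W n ^ c →
        |2 ^ k * ((patIn Q d s y).ncard : ℝ) - (primesIn Q y).ncard| ≤ η * (primesIn Q y).ncard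

/-- For every `η > 0` and `M`, for all large `n`, all radicands `m i ≠ 0` with `|m i - x n i| ≤ W n ^ κ` and the
discriminants `d i` of `ℚ(√(m i))`: at least `M` primes of `Q` lie below all the thresholds of the question, and each pattern
has its share `2 ^ (-k)` of them, up to the relative error `η`. -/
def QuestionRange {k : ℕ} (Q : Set ℕ) (κ : ℝ) (W : ℕ → ℝ) (x : ℕ → Fin k → ℝ) : Prop :=
  ∀ (η : ℝ) (M : ℕ), 0 < η → ∀ᶠ n : ℕ in atTop, ∀ m d : Fin k → ℤ,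
    (∀ i, m i ≠ 0 ∧ |(m i : ℝ) - x n i| ≤ W n ^ κ ∧ IsDisc (m i) (d i)) →
      M ≤ MP Q d ∧ ∀ s : Fin k → Bool, |2 ^ k * (NP Q d s : ℝ) - MP Q d| ≤ η * MP Q d

lemma question {w : ℕ → ℝ} (hwt : Tendsto w atTop atTop) {ξ : ℝ} (hξ : 0 < ξ)
    (h : QuestionRange Set.univ 0 w (fun n (_ : Fin 1) => w n * -ξ)) :
    ∀ B : ℕ, ∀ᶠ n : ℕ in atTop, ∀ d : ℤ, IsDisc (-⌊w n * ξ⌋) d → B < N d := by
  intro B
  filter_upwards [h (1 / 2) (4 * (B + 1)) (by norm_num), hwt.eventually_ge_atTop (1 / ξ),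
    hwt.eventually_ge_atTop 1] with n h1 h2 h3 d hd
  have hf : 1 ≤ ⌊w n * ξ⌋ := by
    rw [Int.le_floor]
    rw [div_le_iff₀ hξ] at h2
    exact_mod_cast h2
  obtain ⟨h4, h5⟩ := h1 (fun _ => -⌊w n * ξ⌋) (fun _ => d) (fun i => ⟨by omega, by
    rw [Real.rpow_zero]
    push_cast
    have h6 := Int.floor_le (w n * ξ)
    have h7 := Int.lt_floor_add_one (w n * ξ)
    rw [abs_le]
    constructor <;> linarith, hd⟩)
  have h6 := h5 (fun _ => true)
  have h7 : NP Set.univ (fun _ : Fin 1 => d) (fun _ => true) = N d := by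
    unfold NP N
    congr 1
    ext p
    simp only [Set.mem_ofPred_eq, Pattern, thr, Set.mem_univ, true_and, iff_true]
    constructor
    · rintro ⟨a1, a2, a3⟩
      exact ⟨a1, a2 0, (a3 0).1, (a3 0).2⟩
    · rintro ⟨a1, a2, a3, a4⟩
      exact ⟨a1, fun _ => a2, fun _ => ⟨a3, a4⟩⟩
  rw [h7] at h6
  have h8 : (4 * ((B : ℝ) + 1)) ≤ (MP Set.univ (fun _ : Fin 1 => d) : ℝ) := by exact_mod_cast h4
  have h9 := (abs_le.1 h6).1
  have h10 : (B : ℝ) + 1 ≤ N d := by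
    have e : (2 : ℝ) ^ 1 = 2 := by norm_num
    rw [e] at h9
    linarith
  have h11 : B + 1 ≤ N d := by exact_mod_cast h10
  omega

theorem result :
    -- every radicand has exactly one discriminant; all primes: `ρ = 1`
    ((∀ m : ℤ, m ≠ 0 → ∃! d, IsDisc m d) ∧ Thick Set.univ 1) ∧
    -- (1)
    (∀ (k : ℕ) (A ρ κ τ : ℝ) (Q : Set ℕ) (w : ℕ → ℝ), 1 ≤ k → 0 < ρ → ρ ≤ 1 → 1 < A * ρ → κ < 1 → 0 ≤ τ →
      Thick Q ρ → (∀ n, 1 ≤ w n) → (∀ t : ℝ, τ < t → Summable fun n => w n ^ (-t)) →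
      dimH {ξ : Fin k → ℝ | ¬ Regular Q A κ w (fun n i => w n * ξ i)} ≤
        ENNReal.ofReal ((k - 1 + max (1 / 2) (1 - ρ + 1 / A) + τ) / (1 - κ))) ∧
    -- (2)
    (∀ (A ρ κ : ℝ) (Q : Set ℕ) (w : ℕ → ℝ) (Ξ : Set ℝ), 0 < ρ → ρ ≤ 1 → 1 < A * ρ → 0 ≤ κ → κ < 1 → Thick Q ρ →
      (∀ n, 1 ≤ w n) → Tendsto (fun n : ℕ => w n / Real.log n) atTop atTop → Ξ.Countable → (∀ ξ ∈ Ξ, ξ ≠ 0) →
      dimH {α : ℝ | 1 < α ∧ ¬ ∀ ξ ∈ Ξ, Regular Q A κ (fun n => α ^ w n) (fun n (_ : Fin 1) => ξ * α ^ w n)} ≤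
        ENNReal.ofReal (max (1 / 2) (1 - ρ + 1 / A) / (1 - κ))) ∧
    -- (3)
    (∀ (k : ℕ) (ρ κ C : ℝ) (Q : Set ℕ) (W : ℕ → ℝ) (x : ℕ → Fin k → ℝ), 1 ≤ k → 0 < ρ → κ ≤ 1 → Thick Q ρ →
      Tendsto W atTop atTop → (∀ n i, |x n i| ≤ C * W n) → Regular Q 2 κ W x → QuestionRange Q κ W x) ∧
    -- (4)
    (∀ (τ : ℝ) (w : ℕ → ℝ), 0 ≤ τ → (∀ n, 1 ≤ w n) → (∀ t : ℝ, τ < t → Summable fun n => w n ^ (-t)) →
      dimH {ξ : ℝ | 0 < ξ ∧ ¬ ∀ B : ℕ, ∀ᶠ n : ℕ in atTop, ∀ d : ℤ, IsDisc (-⌊w n * ξ⌋) d → B < N d} ≤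
        ENNReal.ofReal (1 / 2 + τ)) ∧
    -- (5)
    (∀ (Q : Set ℕ) (w : ℕ → ℝ), Tendsto w atTop atTop → ENNReal.ofReal (1 / 2) ≤
      dimH {ξ : Fin 1 → ℝ | (∀ i, ξ i < 0) ∧ ¬ QuestionRange Q 0 w (fun n i => w n * ξ i)}) := by
  have h1 : ∀ (k : ℕ) (A ρ κ τ : ℝ) (Q : Set ℕ) (w : ℕ → ℝ), 1 ≤ k → 0 < ρ → ρ ≤ 1 → 1 < A * ρ → κ < 1 → 0 ≤ τ →
      Thick Q ρ → (∀ n, 1 ≤ w n) → (∀ t : ℝ, τ < t → Summable fun n => w n ^ (-t)) →
      dimH {ξ : Fin k → ℝ | ¬ Regular Q A κ w (fun n i => w n * ξ i)} ≤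
        ENNReal.ofReal ((k - 1 + max (1 / 2) (1 - ρ + 1 / A) + τ) / (1 - κ)) := by
    intro k A ρ κ τ Q w hk hρ hρ1 hA hκ hτ hQ hw hs
    exact Pool.Agent.U265.MS.dil_main k hk A ρ κ τ Q hρ hρ1 hA hκ hτ hQ w hw hs
  have h3 : ∀ (k : ℕ) (ρ κ C : ℝ) (Q : Set ℕ) (W : ℕ → ℝ) (x : ℕ → Fin k → ℝ), 1 ≤ k → 0 < ρ → κ ≤ 1 → Thick Q ρ →
      Tendsto W atTop atTop → (∀ n i, |x n i| ≤ C * W n) → Regular Q 2 κ W x → QuestionRange Q κ W x := by
    intro k ρ κ C Q W x hk hρ hκ hQ hW hx h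
    exact Pool.Agent.U265.MS.thr_main hk hρ hQ hκ hW hx h
  refine ⟨⟨fun m hm => ?_, Pool.Agent.Y549.SP.Fin2.thick_univ⟩, h1, ?_, h3, ?_, ?_⟩
  · obtain ⟨d, hd⟩ := Pool.Agent.U265.MS.exists_disc hm
    exact ⟨d, hd, fun d' hd' => Pool.Agent.U265.MS.disc_unique hd' hd⟩
  · intro A ρ κ Q w Ξ hρ hρ1 hA hκ0 hκ hQ hw hlim hΞ hΞ0
    exact Pool.Agent.U265.MS.pow_main A ρ κ Q hρ hρ1 hA hκ0 hκ hQ Ξ hΞ hΞ0 w hw hlim
  · intro τ w hτ hw hs
    have hwt : Tendsto w atTop atTop :=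
      Pool.Agent.U265.MS.tendsto_of_summable hw (t := τ + 1) (by linarith) (hs _ (by linarith))
    have hiso : Isometry (fun y : ℝ => (fun _ : Fin 1 => -y)) := by
      refine Isometry.of_dist_eq fun a b => ?_
      rw [dist_pi_const, dist_neg_neg]
    have h2 := h1 1 2 1 0 τ Set.univ w le_rfl one_pos le_rfl (by norm_num) (by norm_num) hτ
      Pool.Agent.Y549.SP.Fin2.thick_univ hw hs
    have e1 : ((((1 : ℕ) : ℝ)) - 1 + max (1 / 2) (1 - 1 + 1 / 2) + τ) / (1 - 0) = 1 / 2 + τ := by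
      norm_num
    rw [e1] at h2
    rw [← hiso.dimH_image]
    refine (dimH_mono ?_).trans h2
    rintro _ ⟨ξ, ⟨hξ0, hξ⟩, rfl⟩ hreg
    apply hξ
    refine question hwt hξ0 (h3 1 1 0 (|ξ|) Set.univ w _ le_rfl one_pos (by norm_num)
      Pool.Agent.Y549.SP.Fin2.thick_univ hwt (fun n i => ?_) hreg)
    have := hw n
    rw [abs_mul, abs_of_pos (by linarith), abs_neg]
    linarith
  · intro Q w hw
    exact Pool.Agent.U265.MS.sharp w hw Q

end Pool.Agent.Results.MP_aaa0df_nt.MetricSplitting
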