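import Pool.Agent.U471.DQ.Quad5

/-!
# Small split primes in the fields generated by the square roots of all the integers close to almost all values of real
polynomials

From Mathlib: `Polynomial.eval`, `Polynomial.coeff`, `Polynomial.natDegree`: real polynomials; `Nat.Prime`: primes;
`IsSquare`: squares; `Squarefree`: squarefree integers; `IsAlgebraic ℚ`: algebraic numbers.

Method: Weyl's inequality without losses for all the coefficients at the same time (an inverse theorem, from the starting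
files for the top coefficient), a discrete Fejer kernel for the integer parts of several functions, uniform distribution
of the vectors in residue classes with a power saving, high moments; the finite-field model is evaluated.
-/

set_option autoImplicit false

namespace Pool.Agent.Results.MP_aaa0df_nt.RealPolynomialFields

open Finset

/-- The polynomials `f 0, ..., f (r - 1)` are not on major arcs, at the scale `N` and with the parameter `R`: for every
integer vector `l ≠ 0` with all `|l i| ≤ R` there is `1 ≤ j ≤ d` such that the number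
`∑ i, l i * (coefficient of f i at X ^ j)` has a distance of more than `R / N ^ j` from all the integers. -/
def Generic {r : ℕ} (d N : ℕ) (R : ℝ) (f : Fin r → Polynomial ℝ) : Prop :=
  ∀ l : Fin r → ℤ, l ≠ 0 → (∀ i, (|l i| : ℝ) ≤ R) → ∃ j : ℕ, 1 ≤ j ∧ j ≤ d ∧
    ∀ b : ℤ, R / (N : ℝ) ^ j < |∑ i, (l i : ℝ) * (f i).coeff j - b|

/-- `Generic` with `R = N ^ β` for some `β > 0` and all large `N`. -/
def PowerGeneric {r : ℕ} (d : ℕ) (f : Fin r → Polynomial ℝ) : Prop :=
  ∃ β : ℝ, 0 < β ∧ ∃ N₀ : ℕ, ∀ N : ℕ, N₀ ≤ N → Generic d N ((N : ℝ) ^ β) f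

/-- `α` has a finite irrationality exponent. -/
def FiniteType (α : ℝ) : Prop := ∃ (w : ℕ) (c : ℝ), 0 < c ∧ ∀ q : ℕ, 1 ≤ q → ∀ a : ℤ, c / (q : ℝ) ^ w ≤ |q * α - a|

/-- The primes up to `x`. -/
def primesTo (x : ℕ) : Finset ℕ := (range (x + 1)).filter Nat.Prime

open Classical in
/-- The number of the odd primes `p ≤ x` such that `z i` is a square modulo `p` and not divisible by `p` for all `i ∈ S`, and
is not a square modulo `p` for all `i ∉ S`: `p` splits in the fields `ℚ(√(z i))` with `i ∈ S` and is inert in the others. -/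
noncomputable def residueCount {r : ℕ} (S : Finset (Fin r)) (z : Fin r → ℤ) (x : ℕ) : ℕ :=
  ((primesTo x).filter (fun p : ℕ => ∀ i, if i ∈ S then (p ≠ 2 ∧ ¬ (p : ℤ) ∣ z i ∧ IsSquare (z i : ZMod p))
    else (p ≠ 2 ∧ ¬ IsSquare (z i : ZMod p)))).card

/-- The discriminants of the quadratic fields, and `1` (as in the frozen statement of the problem, both signs). -/
def Fundamental (D : ℤ) : Prop :=
  (D % 4 = 1 ∧ Squarefree D) ∨ (∃ m : ℤ, D = 4 * m ∧ (m % 4 = 2 ∨ m % 4 = 3) ∧ Squarefree m)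

/-- `p` splits in the quadratic field with the discriminant `D` (as in the frozen statement of the problem). -/
def Splits (D : ℤ) (p : ℕ) : Prop := ¬ (p : ℤ) ∣ D ∧ ∃ t : ℤ, (4 * (p : ℤ)) ∣ t ^ 2 - D

/-- `p` is inert in the quadratic field with the discriminant `D`. -/
def Inert (D : ℤ) (p : ℕ) : Prop := ¬ (p : ℤ) ∣ D ∧ ¬ ∃ t : ℤ, (4 * (p : ℤ)) ∣ t ^ 2 - D

/-- `p` splits for `D i`, `i ∈ S`, and is inert for `D i`, `i ∉ S`. -/
def Pattern {r : ℕ} (S : Finset (Fin r)) (D : Fin r → ℤ) (p : ℕ) : Prop :=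
  ∀ i, (i ∈ S → Splits (D i) p) ∧ (i ∉ S → Inert (D i) p)

open Classical in
/-- The number of the primes `p ≤ x` with the pattern `S`. -/
noncomputable def patternCount {r : ℕ} (S : Finset (Fin r)) (D : Fin r → ℤ) (x : ℕ) : ℕ :=
  ((primesTo x).filter (Pattern S D)).card

/-- The threshold `(log |D|) ^ 2 (log log |D|) ^ 2` of the problem. -/
noncomputable def threshold (D : ℤ) : ℝ := Real.log (|(D : ℝ)|) ^ 2 * Real.log (Real.log (|(D : ℝ)|)) ^ 2

/-- **(1)** Let `r, d ≥ 1` be integers and `0 < δ ≤ 1 / 4`. There are `κ > 0` and `C` such that the following holds for all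
`N, R ≥ 1` and for all real polynomials `f 0, ..., f (r - 1)` of degree at most `d` which are not on major arcs (`Generic`).
All the integers `0 ≤ n < N` with at most `C N R ^ (- κ)` exceptions are such that for ALL integers `z i` with
`|z i - f i (n)| ≤ R ^ κ`:

* ALL the `2 ^ r` patterns of splitting in the fields `ℚ(√(z i))` and ALL `x ≤ R ^ κ`: the number of the primes `p ≤ x` with
  the pattern is `π(x) / 2 ^ r` up to `C x ^ δ ((x (1 + log R)) ^ (1 / 2) + 1 + log R)`;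
* `k ∏ z i`, over the `i` in a nonempty set, is not a square, for ALL integers `k ≠ 0` with `|k| ≤ R ^ κ`.

**(2)** Let in addition `f` be `PowerGeneric`, and let `ε > 0`. There is `β > 0` such that for all `M` and all large `N` all the
integers `0 ≤ n < N` with at most `N ^ (1 - β)` exceptions are such that for ALL integers `z i` with
`|z i - f i (n)| ≤ N ^ β` and for the discriminants `D i` of the fields `ℚ(√(z i))`:

* all `|D i| > N ^ β`, and `k ∏ D i`, over the `i` in a nonempty set, is not a square, for ALL integers `k ≠ 0` with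
  `|k| ≤ N ^ β`;
* ALL the `2 ^ r` patterns of splitting and ALL `x ≤ N ^ β` with `x ≥ (log |D i|) ^ (1 + ε)` for some `i`: the number of the
  primes `p ≤ x` with the pattern is `π(x) / 2 ^ r` up to `ε π(x)`;
* ALL the patterns: at least `M` primes below all the thresholds `(log |D i|) ^ 2 (log log |D i|) ^ 2` have the pattern.

**(3)** Polynomials of degree at most `d` are `PowerGeneric` if every `f i` has a coefficient of `FiniteType` at some `X ^ j`,
`1 ≤ j ≤ d`, for which the coefficients of all the other `f i'` at `X ^ j` are zero (for `r = 1`: one such coefficient).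
**(4)** Irrational algebraic numbers are of `FiniteType`. -/
theorem result :
    (∀ r d : ℕ, 1 ≤ r → 1 ≤ d → ∀ δ : ℝ, 0 < δ → δ ≤ 1 / 4 → ∃ κ C : ℝ, 0 < κ ∧ 0 < C ∧
      ∀ (N : ℕ) (R : ℝ) (f : Fin r → Polynomial ℝ), 1 ≤ N → 1 ≤ R → (∀ i, (f i).natDegree ≤ d) → Generic d N R f →
      ∃ E : Finset ℕ, (E.card : ℝ) ≤ C * (N * R ^ (-κ)) ∧ ∀ n : ℕ, n < N → n ∉ E →
        ∀ z : Fin r → ℤ, (∀ i, |(z i : ℝ) - (f i).eval (n : ℝ)| ≤ R ^ κ) →
          (∀ (S : Finset (Fin r)) (x : ℕ), (x : ℝ) ≤ R ^ κ →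
            |(residueCount S z x : ℝ) - ((primesTo x).card : ℝ) / 2 ^ r| ≤
              C * ((x : ℝ) ^ δ * (√(x * (1 + Real.log R)) + (1 + Real.log R)))) ∧
          ∀ T : Finset (Fin r), T.Nonempty → ∀ k : ℤ, k ≠ 0 → ((|k| : ℤ) : ℝ) ≤ R ^ κ → ¬ IsSquare (k * ∏ i ∈ T, z i)) ∧
    (∀ (r d : ℕ) (f : Fin r → Polynomial ℝ), 1 ≤ r → 1 ≤ d → (∀ i, (f i).natDegree ≤ d) → PowerGeneric d f →
      ∀ ε : ℝ, 0 < ε → ∃ β : ℝ, 0 < β ∧ ∀ M : ℕ, ∃ N₁ : ℕ, ∀ N : ℕ, N₁ ≤ N →
      ∃ E : Finset ℕ, (E.card : ℝ) ≤ (N : ℝ) ^ (1 - β) ∧ ∀ n : ℕ, n < N → n ∉ E →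
        ∀ z : Fin r → ℤ, (∀ i, |(z i : ℝ) - (f i).eval (n : ℝ)| ≤ (N : ℝ) ^ β) →
        ∀ D : Fin r → ℤ, (∀ i, Fundamental (D i)) → (∀ i, IsSquare (D i * z i)) →
          (∀ i, (N : ℝ) ^ β < ((|D i| : ℤ) : ℝ)) ∧
          (∀ T : Finset (Fin r), T.Nonempty → ∀ k : ℤ, k ≠ 0 → ((|k| : ℤ) : ℝ) ≤ (N : ℝ) ^ β →
            ¬ IsSquare (k * ∏ i ∈ T, D i)) ∧
          (∀ (S : Finset (Fin r)) (x : ℕ), (x : ℝ) ≤ (N : ℝ) ^ β → (∃ i, Real.log (|(D i : ℝ)|) ^ (1 + ε) ≤ x) →
            |(patternCount S D x : ℝ) - ((primesTo x).card : ℝ) / 2 ^ r| ≤ ε * (primesTo x).card) ∧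
          ∀ S : Finset (Fin r), ∃ P : Finset ℕ, M ≤ P.card ∧
            ∀ p ∈ P, p.Prime ∧ (∀ i, (p : ℝ) < threshold (D i)) ∧ Pattern S D p) ∧
    (∀ (r d : ℕ) (f : Fin r → Polynomial ℝ),
      (∀ i, ∃ j, 1 ≤ j ∧ j ≤ d ∧ FiniteType ((f i).coeff j) ∧ ∀ i', i' ≠ i → (f i').coeff j = 0) → PowerGeneric d f) ∧
    (∀ α : ℝ, Irrational α → IsAlgebraic ℚ α → FiniteType α) := by
  classical
  have hcnt : ∀ {r : ℕ} (S : Finset (Fin r)) (z : Fin r → ℤ) (x : ℕ),
      residueCount S z x = Pool.Agent.U471.DQ.cnt (Pool.Agent.U471.DQ.Pat S) z x := by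
    intro r S z x
    unfold residueCount Pool.Agent.U471.DQ.cnt
    refine congrArg card ?_
    ext p
    rw [mem_filter, mem_filter]
    refine and_congr Iff.rfl ?_
    unfold Pool.Agent.U471.DQ.Pat Pool.Agent.U471.DQ.Sp Pool.Agent.U471.DQ.Ne
    refine forall_congr' fun i => ?_
    by_cases hi : i ∈ S
    · simp only [if_pos hi]
    · simp only [if_neg hi]
  have hdc : ∀ {r : ℕ} (S : Finset (Fin r)) (D : Fin r → ℤ) (x : ℕ), patternCount S D x = Pool.Agent.U471.DQ.dcount S D x := by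
    intro r S D x
    unfold patternCount Pool.Agent.U471.DQ.dcount
    rfl
  refine ⟨?_, ?_, ?_, fun α h h' => Pool.Agent.U471.DQ.finType_alg h h'⟩
  · intro r d hr hd δ hδ hδ1
    obtain ⟨κ, C, h1, _, h3, H⟩ := Pool.Agent.U471.DQ.near_quad r d hr hd δ hδ hδ1
    refine ⟨κ, C, h1, by linarith, ?_⟩
    intro N R f hN hR hf hgen
    obtain ⟨E, _, hE2, hE3⟩ := H N R f hN hR hf hgen
    refine ⟨E, hE2, fun n hn hnE z hz => ?_⟩
    obtain ⟨h4, h5⟩ := hE3 n (mem_range.2 hn) hnE z hz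
    refine ⟨fun S x hx => ?_, h5⟩
    rw [hcnt]
    exact h4 S x hx
  · rintro r d f hr hd hf ⟨β₀, hβ₀, N₀, hg⟩ ε hε
    obtain ⟨ε₁, hε₁⟩ : ∃ ε₁ : ℝ, ε₁ = min ε (1 / 2) := ⟨_, rfl⟩
    have hε₁0 : 0 < ε₁ := by rw [hε₁]; positivity
    have hε₁ε : ε₁ ≤ ε := by rw [hε₁]; exact min_le_left _ _
    have hε₁2 : ε₁ ≤ 1 / 2 := by rw [hε₁]; exact min_le_right _ _
    obtain ⟨κ, hκ, H⟩ := Pool.Agent.U471.DQ.quad_range r d hr hd f hf β₀ hβ₀ N₀ hg ε₁ hε₁0
    refine ⟨κ / 2, by positivity, fun M => ?_⟩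
    obtain ⟨η, hη⟩ : ∃ η : ℝ, η = min ε (1 / 2 ^ (r + 1)) := ⟨_, rfl⟩
    have hη0 : 0 < η := by rw [hη]; positivity
    have hηε : η ≤ ε := by rw [hη]; exact min_le_left _ _
    have hη2 : η ≤ 1 / 2 ^ (r + 1) := by rw [hη]; exact min_le_right _ _
    obtain ⟨N₁, hN₁⟩ := H η hη0
    -- large N
    have ev1 : ∀ᶠ N : ℕ in Filter.atTop, (max 20 (2 ^ (r + 3) * (M : ℝ) + 1)) / κ ≤ Real.log N := by
      have := Real.tendsto_log_atTop.comp (tendsto_natCast_atTop_atTop (R := ℝ))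
      exact this.eventually_ge_atTop _
    have ev2 : ∀ᶠ N : ℕ in Filter.atTop, (κ * Real.log N) ^ 2 ≤ (N : ℝ) ^ κ := by
      have h := (isLittleO_log_rpow_atTop (r := κ / 2) (by positivity)).bound (c := 1 / κ) (by positivity)
      have h' := (tendsto_natCast_atTop_atTop (R := ℝ)).eventually h
      filter_upwards [h', Filter.eventually_ge_atTop 1] with N hN hN1
      have hN1' : (1 : ℝ) ≤ N := by exact_mod_cast hN1
      have hlog : 0 ≤ Real.log N := Real.log_nonneg hN1'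
      rw [Real.norm_of_nonneg hlog, Real.norm_of_nonneg (by positivity)] at hN
      have h5 : κ * Real.log N ≤ (N : ℝ) ^ (κ / 2) := by
        calc κ * Real.log N ≤ κ * (1 / κ * (N : ℝ) ^ (κ / 2)) := mul_le_mul_of_nonneg_left hN hκ.le
          _ = _ := by field_simp
      calc (κ * Real.log N) ^ 2 ≤ ((N : ℝ) ^ (κ / 2)) ^ 2 := pow_le_pow_left₀ (by positivity) h5 2
        _ = (N : ℝ) ^ κ := by
            rw [← Real.rpow_natCast, ← Real.rpow_mul (by positivity)]
            congr 1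
            push_cast
            ring
    obtain ⟨N₂, hN₂⟩ := Filter.eventually_atTop.1 (ev1.and ev2)
    refine ⟨max N₁ (max N₂ 1), fun N hN => ?_⟩
    have hNN₁ : N₁ ≤ N := (le_max_left _ _).trans hN
    have hNN₂ : N₂ ≤ N := ((le_max_left _ _).trans (le_max_right _ _)).trans hN
    have hN1 : 1 ≤ N := ((le_max_right _ _).trans (le_max_right _ _)).trans hN
    have hNr : (1 : ℝ) ≤ N := by exact_mod_cast hN1
    have hN0 : (0 : ℝ) < N := by linarith
    obtain ⟨hL, hsq⟩ := hN₂ N hNN₂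
    rw [div_le_iff₀ hκ, mul_comm (Real.log N) κ] at hL
    obtain ⟨Λ, hΛ⟩ : ∃ Λ : ℝ, Λ = κ * Real.log N := ⟨_, rfl⟩
    have hΛ20 : 20 ≤ Λ := by rw [hΛ]; exact (le_max_left _ _).trans hL
    have hΛM : 2 ^ (r + 3) * (M : ℝ) + 1 ≤ Λ := by rw [hΛ]; exact (le_max_right _ _).trans hL
    obtain ⟨E, _, hE2, hE3⟩ := hN₁ N hNN₁
    have hpw : (N : ℝ) ^ (κ / 2) ≤ (N : ℝ) ^ κ := Real.rpow_le_rpow_of_exponent_le hNr (by linarith)
    refine ⟨E, hE2, fun n hn hnE z hz D hD hDz => ?_⟩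
    obtain ⟨h1, h2, h3⟩ := hE3 n (mem_range.2 hn) hnE z (fun i => (hz i).trans hpw) D hD hDz
    have hDlog : ∀ i, Λ < Real.log (|(D i : ℝ)|) := by
      intro i
      have h4 := h2 i
      push_cast at h4
      have h5 := Real.log_lt_log (by positivity) h4
      rw [Real.log_rpow hN0] at h5
      rwa [hΛ]
    refine ⟨fun i => lt_of_le_of_lt hpw (h2 i), fun T hT k hk hkR => h1 T hT k hk (hkR.trans hpw), ?_, ?_⟩
    · rintro S x hx ⟨i, hi⟩
      rw [hdc]
      refine (h3 S x ?_ (hx.trans hpw)).trans (mul_le_mul_of_nonneg_right hηε (Nat.cast_nonneg _))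
      rw [← hΛ]
      calc Λ ^ (1 + ε₁) ≤ Λ ^ (1 + ε) := Real.rpow_le_rpow_of_exponent_le (by linarith) (by linarith)
        _ ≤ Real.log (|(D i : ℝ)|) ^ (1 + ε) := Real.rpow_le_rpow (by linarith) (hDlog i).le (by linarith)
        _ ≤ x := hi
    · intro S
      obtain ⟨x, hx⟩ : ∃ x : ℕ, x = ⌊Λ ^ 2⌋₊ := ⟨_, rfl⟩
      have hxle : (x : ℝ) ≤ Λ ^ 2 := by rw [hx]; exact Nat.floor_le (by positivity)
      have hxge : Λ ^ 2 - 1 < x := by
        rw [hx]
        have := Nat.lt_floor_add_one (Λ ^ 2)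
        linarith
      have hx20 : 20 ≤ x := by
        have : (20 : ℝ) < x := by nlinarith
        exact_mod_cast this.le
      have hxrange : Λ ^ (1 + ε₁) ≤ x := by
        refine le_trans ?_ hxge.le
        obtain ⟨s, hs⟩ : ∃ s : ℝ, s = √Λ := ⟨_, rfl⟩
        have hs0 : 0 ≤ s := by rw [hs]; exact Real.sqrt_nonneg _
        have hss : s * s = Λ := by rw [hs]; exact Real.mul_self_sqrt (by linarith)
        have hs4 : 4 ≤ s := by
          rw [hs]
          exact Real.le_sqrt_of_sq_le (by linarith)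
        calc Λ ^ (1 + ε₁) ≤ Λ ^ (1 + 1 / 2 : ℝ) := Real.rpow_le_rpow_of_exponent_le (by linarith) (by linarith)
          _ = Λ * s := by rw [Real.rpow_add (by linarith), Real.rpow_one, hs, Real.sqrt_eq_rpow]
          _ ≤ Λ ^ 2 - 1 := by rw [← hss]; nlinarith [mul_nonneg hs0 hs0, mul_nonneg (mul_nonneg hs0 hs0) hs0]
      have h4 := h3 S x (by rw [← hΛ]; exact hxrange) (hxle.trans (by rw [hΛ]; exact hsq))
      refine ⟨(Pool.Agent.U471.DQ.prs x).filter (Pool.Agent.U471.DQ.DPat S D), ?_, ?_⟩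
      · have h5 : (Pool.Agent.U471.DQ.dcount S D x : ℝ) =
            (((Pool.Agent.U471.DQ.prs x).filter (Pool.Agent.U471.DQ.DPat S D)).card : ℝ) := by
          unfold Pool.Agent.U471.DQ.dcount
          rfl
        rw [h5] at h4
        have h6 := (abs_le.1 h4).1
        have h7 := Pool.Agent.U471.DQ.prs_sqrt x hx20
        obtain ⟨c, hc⟩ : ∃ c : ℝ, c = ((Pool.Agent.U471.DQ.prs x).card : ℝ) := ⟨_, rfl⟩
        rw [← hc] at h6 h7
        have hsx : Λ - 1 ≤ √(x : ℝ) := Real.le_sqrt_of_sq_le (by nlinarith)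
        have h8 : η * c ≤ c / 2 ^ (r + 1) := by
          have hc0 : 0 ≤ c := by rw [hc]; positivity
          calc η * c ≤ 1 / 2 ^ (r + 1) * c := mul_le_mul_of_nonneg_right hη2 hc0
            _ = _ := by ring
        have h9 : c / 2 ^ r = 2 * (c / 2 ^ (r + 1)) := by
          rw [pow_succ]
          field_simp
        have h10 : (M : ℝ) ≤ c / 2 ^ (r + 1) := by
          rw [le_div_iff₀ (by positivity)]
          have e : (2 : ℝ) ^ (r + 3) = 2 ^ (r + 1) * 4 := by rw [pow_add, pow_add]; ring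
          rw [e] at hΛM
          linarith
        have h11 : (M : ℝ) ≤ (((Pool.Agent.U471.DQ.prs x).filter (Pool.Agent.U471.DQ.DPat S D)).card : ℝ) := by
          rw [h9] at h6
          linarith
        exact_mod_cast h11
      · intro p hp
        rw [mem_filter] at hp
        obtain ⟨hp1, hp2⟩ := hp
        unfold Pool.Agent.U471.DQ.prs at hp1
        rw [mem_filter, mem_range] at hp1
        refine ⟨hp1.2, fun i => ?_, hp2⟩
        have hpx : (p : ℝ) ≤ x := by exact_mod_cast Nat.lt_succ_iff.1 hp1.1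
        have hl := hDlog i
        unfold threshold
        have hl2 : 1 < Real.log (Real.log (|(D i : ℝ)|)) := by
          rw [Real.lt_log_iff_exp_lt (by linarith)]
          have := Real.exp_one_lt_d9
          linarith
        have hl3 : Λ ^ 2 < Real.log (|(D i : ℝ)|) ^ 2 := pow_lt_pow_left₀ hl (by linarith) two_ne_zero
        have hl4 : 1 ≤ Real.log (Real.log (|(D i : ℝ)|)) ^ 2 := one_le_pow₀ hl2.le
        nlinarith
  · intro r d f h
    obtain ⟨β, h1, _, N₀, h3⟩ := Pool.Agent.U471.DQ.gen_of_type d f h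
    exact ⟨β, h1, N₀, h3⟩

end Pool.Agent.Results.MP_aaa0df_nt.RealPolynomialFields
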